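import Pool.Agent.U722.FF.Stm2
import Pool.Agent.Helper158.Bridge

set_option autoImplicit false

/-! Project FS, package H3: group cohomology vanishes above the length of a free resolution of
the trivial module. -/

namespace Pool.Agent.U864.FSP

open CategoryTheory U722.FF TH57.FF Pool.Agent.Helper158

/-- Group cohomology with any coefficients vanishes above the length of a resolution of the
trivial module by finitely generated free modules. -/
theorem coh_zero (G : Type) [Group G] (k : ℕ) (h : TFn G k) (A : Rep.{0} ℤ G) (n : ℕ)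
    (hn : k < n) : Subsingleton (groupCohomology A n) := by
  obtain ⟨P, iA, iM, d, ε, h1, h2, h3, h4, h5, h6⟩ := seq_of_FR k _ h
  let σ : PM G PUnit.{1} →+ ℤ := Finsupp.applyAddHom (M := ℤ) PUnit.unit
  have hσ : ∀ x : PM G PUnit.{1}, σ x = 0 ↔ x = 0 := by
    intro x
    constructor
    · intro hx
      refine Finsupp.ext (fun u => ?_)
      cases u
      exact hx
    · rintro rfl
      exact map_zero σ
  have hσs : Function.Surjective σ := by
    intro z
    refine ⟨(Finsupp.single PUnit.unit z : PUnit.{1} →₀ ℤ), ?_⟩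
    change (Finsupp.single PUnit.unit z : PUnit.{1} →₀ ℤ) PUnit.unit = z
    simp
  let ε' : P 0 →+ ℤ := σ.comp ε.toAddMonoidHom
  have hR : Reso P d ε' := by
    refine ⟨hσs.comp h4, ?_, ?_, ?_⟩
    · intro g x
      change σ (ε (MonoidAlgebra.of ℤ G g • x)) = σ (ε x)
      rw [map_smul, of_smul]
      change (Finsupp.mapDomain (fun x => g • x) (show PUnit.{1} →₀ ℤ from ε x)) PUnit.unit =
        (show PUnit.{1} →₀ ℤ from ε x) PUnit.unit
      have : (fun x : PUnit.{1} => g • x) = id := by
        funext x
        rfl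
      rw [this, Finsupp.mapDomain_id]
    · intro x
      change σ (ε x) = 0 ↔ _
      rw [hσ]
      exact h5 x
    · intro i x
      rw [h6 i]
      exact LinearMap.mem_ker.symm
  have : ∀ i, Module.Projective (MonoidAlgebra ℤ G) (P i) := fun i => inferInstance
  obtain ⟨π, hπ, -⟩ := pr_coh hR.pr A ((ComplexShape.up ℕ).prev n) n rfl
  have hP : Subsingleton (P n) := h3 n hn
  have hX : ∀ f : FMk ℤ (G := G) (P n) ⟶ A, f = 0 := by
    intro f
    have hz : Limits.IsZero (FMk ℤ (G := G) (P n)) := (Rep.isZero_iff ℤ G _).2 hP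
    exact hz.eq_of_src f 0
  have hs : Subsingleton (Preadditive.leftComp A (hR.pr.complex.d (n + 1) n)).ker := by
    refine ⟨fun a b => Subtype.ext ?_⟩
    exact (hX a.1).trans (hX b.1).symm
  exact hπ.subsingleton

theorem t_H3 : S_H3 := fun G _ h => coh_zero G 2 h _ 3 (by norm_num)

end Pool.Agent.U864.FSP
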